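import Pool.Agent.Helper32_NJ.Stmts

/-! Module TRN of squad NJ: translates by the 2-torsion points. -/

set_option autoImplicit false

namespace Pool.Agent.NJ.H94

theorem sq_of_rat {n : ℤ} {z : ℚ} (h : (n : ℚ) = z ^ 2) : IsSquare n := by
  rw [← Rat.isSquare_intCast_iff]
  exact ⟨z, by rw [h]; ring⟩

/-- the classes of a rational point -/
theorem cls_of (hp : PTSStmt) {e₂ e₃ : ℤ} {X Y : ℚ} (hY : Y ≠ 0)
    (h : Y ^ 2 = X * (X - e₂) * (X - e₃)) : ∃ f₁ f₂ : ℤ, Cls e₂ e₃ f₁ f₂ ∧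
      (∃ z : ℚ, f₁ * X = z ^ 2) ∧ ∃ z : ℚ, f₂ * (X - e₂) = z ^ 2 := by
  obtain ⟨d₁, d₂, r, s, w, A, B, hP, hX⟩ := hp e₂ e₃ X Y hY h
  have hs : (s : ℚ) ≠ 0 := by exact_mod_cast hP.s0
  refine ⟨d₁, d₂, ⟨r, s, w, A, B, hP⟩, ⟨d₁ * A / s, ?_⟩, ⟨d₂ * B / s, ?_⟩⟩
  · rw [hX]
    have h1 : (r : ℚ) = d₁ * A ^ 2 := by exact_mod_cast hP.h1
    rw [h1]
    field_simp
  · have h2 : (r : ℚ) - e₂ * s ^ 2 = d₂ * B ^ 2 := by exact_mod_cast hP.h2
    have h3 : X - e₂ = (d₂ * B ^ 2) / s ^ 2 := by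
      rw [← h2, hX]
      field_simp
    rw [h3]
    field_simp

theorem trn (hp : PTSStmt) : TRNStmt := by
  intro e₂ e₃ d₁ d₂ h2 h3 h23 hC
  obtain ⟨r, s, w, A, B, hP⟩ := hC
  have hs : (s : ℚ) ≠ 0 := by exact_mod_cast hP.s0
  have hw : (w : ℚ) ≠ 0 := by exact_mod_cast hP.w0
  have q2 : (e₂ : ℚ) ≠ 0 := by exact_mod_cast h2
  have q3 : (e₃ : ℚ) ≠ 0 := by exact_mod_cast h3
  have q23 : (e₂ : ℚ) - e₃ ≠ 0 := by
    intro h
    apply h23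
    have : (e₂ : ℚ) = e₃ := by linarith
    exact_mod_cast this
  set X : ℚ := r / s ^ 2 with hX
  set Y : ℚ := w / s ^ 3 with hY
  have hY0 : Y ≠ 0 := by rw [hY]; positivity
  have heq : (w : ℚ) ^ 2 = r * (r - e₂ * s ^ 2) * (r - e₃ * s ^ 2) := by exact_mod_cast hP.eq
  have hcurve : Y ^ 2 = X * (X - e₂) * (X - e₃) := by
    rw [hY, hX, div_pow, heq]
    field_simp
  have hX0 : X ≠ 0 := by
    intro h
    rw [h] at hcurve
    apply hY0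
    have : Y ^ 2 = 0 := by rw [hcurve]; ring
    exact pow_eq_zero_iff (two_ne_zero) |>.1 this
  have hX2 : X - e₂ ≠ 0 := by
    intro h
    rw [h] at hcurve
    apply hY0
    have : Y ^ 2 = 0 := by rw [hcurve]; ring
    exact pow_eq_zero_iff (two_ne_zero) |>.1 this
  have hX3 : X - e₃ ≠ 0 := by
    intro h
    rw [h] at hcurve
    apply hY0
    have : Y ^ 2 = 0 := by rw [hcurve]; ring
    exact pow_eq_zero_iff (two_ne_zero) |>.1 this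
  have k1 : d₁ * X = (d₁ * A / s) ^ 2 := by
    have h1 : (r : ℚ) = d₁ * A ^ 2 := by exact_mod_cast hP.h1
    rw [hX, h1]
    field_simp
  have k2 : d₂ * (X - e₂) = (d₂ * B / s) ^ 2 := by
    have h2 : (r : ℚ) - e₂ * s ^ 2 = d₂ * B ^ 2 := by exact_mod_cast hP.h2
    have h3 : X - e₂ = (d₂ * B ^ 2) / s ^ 2 := by
      rw [← h2, hX]
      field_simp
    rw [h3]
    field_simp
  generalize (d₁ * A / s : ℚ) = a at k1
  generalize (d₂ * B / s : ℚ) = b at k2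
  clear_value X Y
  refine ⟨?_, ?_, ?_⟩
  · have c1 : (-(e₂ * e₃) * Y / X ^ 2) ^ 2 = (e₂ * e₃ / X) * (e₂ * e₃ / X - e₂) *
        (e₂ * e₃ / X - e₃) := by
      rw [div_pow, mul_pow, hcurve]
      field_simp
      ring
    obtain ⟨f₁, f₂, hf, ⟨z1, hz1⟩, ⟨z2, hz2⟩⟩ := cls_of hp
      (div_ne_zero (mul_ne_zero (neg_ne_zero.2 (mul_ne_zero q2 q3)) hY0) (pow_ne_zero 2 hX0)) c1
    refine ⟨f₁, f₂, hf, sq_of_rat (z := a * z1) ?_, sq_of_rat (z := b * z2 * X / Y) ?_⟩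
    · push_cast
      rw [mul_pow, ← k1, ← hz1]
      field_simp
    · push_cast
      rw [div_pow, mul_pow, mul_pow, ← k2, ← hz2, hcurve]
      field_simp
      ring
  · have c1 : (e₂ * (e₂ - e₃) * Y / (X - e₂) ^ 2) ^ 2 = (e₂ * (X - e₃) / (X - e₂)) *
        (e₂ * (X - e₃) / (X - e₂) - e₂) * (e₂ * (X - e₃) / (X - e₂) - e₃) := by
      rw [div_pow, mul_pow, hcurve]
      field_simp
      ring
    obtain ⟨f₁, f₂, hf, ⟨z1, hz1⟩, ⟨z2, hz2⟩⟩ := cls_of hp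
      (div_ne_zero (mul_ne_zero (mul_ne_zero q2 q23) hY0) (pow_ne_zero 2 hX2)) c1
    refine ⟨f₁, f₂, hf, sq_of_rat (z := a * z1 * (X - e₂) / Y) ?_, sq_of_rat (z := b * z2) ?_⟩
    · push_cast
      rw [div_pow, mul_pow, mul_pow, ← k1, ← hz1, hcurve]
      field_simp
    · push_cast
      rw [mul_pow, ← k2, ← hz2]
      field_simp
      ring
  · have c1 : (e₃ * (e₃ - e₂) * Y / (X - e₃) ^ 2) ^ 2 = (e₃ * (X - e₂) / (X - e₃)) *
        (e₃ * (X - e₂) / (X - e₃) - e₂) * (e₃ * (X - e₂) / (X - e₃) - e₃) := by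
      rw [div_pow, mul_pow, hcurve]
      field_simp
      ring
    have q32 : (e₃ : ℚ) - e₂ ≠ 0 := by
      intro h
      apply q23
      linarith
    obtain ⟨f₁, f₂, hf, ⟨z1, hz1⟩, ⟨z2, hz2⟩⟩ := cls_of hp
      (div_ne_zero (mul_ne_zero (mul_ne_zero q3 q32) hY0) (pow_ne_zero 2 hX3)) c1
    refine ⟨f₁, f₂, hf, sq_of_rat (z := a * z1 * (X - e₃) / Y) ?_,
      sq_of_rat (z := b * z2 * (X - e₃) / Y) ?_⟩
    · push_cast
      rw [div_pow, mul_pow, mul_pow, ← k1, ← hz1, hcurve]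
      field_simp
    · push_cast
      rw [div_pow, mul_pow, mul_pow, ← k2, ← hz2, hcurve]
      field_simp
      ring

end Pool.Agent.NJ.H94
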